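import Pool.Agent.H22.VM.Targets

/-!
# Module CN: counting solutions by a complete exponential sum (helper98)
-/

set_option autoImplicit false

open Finset Polynomial

namespace Pool.Agent.H98.VM

open Pool.Agent.H22.VM

theorem e_zero : e 0 = 1 := by simp [e]

theorem e_sum (hEX : T_EX) {α : Type} (s : Finset α) (f : α → ℝ) :
    e (∑ i ∈ s, f i) = ∏ i ∈ s, e (f i) := by
  classical
  induction s using Finset.induction_on with
  | empty => simp [e_zero]
  | insert a s ha ih => rw [Finset.sum_insert ha, Finset.prod_insert ha, hEX.2.1, ih]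

/-- `e (a / q)` only depends on `a` modulo `q` -/
theorem e_congr (hEX : T_EX) {q : ℕ} (hq : 0 < q) {a b : ℤ} (h : (q : ℤ) ∣ a - b) :
    e ((a : ℝ) / (q : ℝ)) = e ((b : ℝ) / (q : ℝ)) := by
  obtain ⟨c, hc⟩ := h
  have hq0 : (q : ℝ) ≠ 0 := by exact_mod_cast hq.ne'
  have h1 : (a : ℝ) / (q : ℝ) = (b : ℝ) / (q : ℝ) + (c : ℝ) := by
    have h2 : (a : ℝ) = b + q * c := by
      have : a = b + q * c := by linarith
      exact_mod_cast this
    rw [h2]
    field_simp
  rw [h1, hEX.2.1, hEX.2.2.1, mul_one]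

section
variable (k q : ℕ)

/-- the exponential `e((∑ h_j x^(j+1)) / q)` -/
noncomputable def G (x : ℕ) (h : Fin k → ZMod q) : ℂ :=
  e ((((∑ j : Fin k, ((h j).val : ℤ) * (x : ℤ) ^ (j.val + 1) : ℤ)) : ℝ) / (q : ℝ))

theorem norm_G (hEX : T_EX) (x : ℕ) (h : Fin k → ZMod q) : ‖G k q x h‖ = 1 := hEX.1 _

theorem inv_G (hEX : T_EX) [NeZero q] (R : Finset ℕ) :
    Inv k q (fun _ : Fin k → ZMod q => (1 : ℝ)) R (fun x => (x : ℤ) - 1) (G k q) := by
  have hq : 0 < q := Nat.pos_of_ne_zero (NeZero.ne q)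
  intro P hP
  set Q : ℤ[X] := P.comp (X - 1) with hQ
  have hQdeg : Q.natDegree ≤ k := by
    have h1 : Q.natDegree ≤ P.natDegree * (X - 1 : ℤ[X]).natDegree := Polynomial.natDegree_comp_le
    have h2 : (X - 1 : ℤ[X]).natDegree = 1 := by
      have := Polynomial.natDegree_X_sub_C (1 : ℤ)
      simpa using this
    rw [h2, mul_one] at h1
    exact h1.trans hP
  have hQev : ∀ x : ℤ, Q.eval x = P.eval (x - 1) := by
    intro x
    rw [hQ, Polynomial.eval_comp]
    simp
  have hQsum : ∀ x : ℤ, Q.eval x = Q.coeff 0 + ∑ j : Fin k, Q.coeff (j.val + 1) * x ^ (j.val + 1) := by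
    intro x
    rw [Polynomial.eval_eq_sum_range' (Nat.lt_succ_of_le hQdeg), Finset.sum_range_succ']
    rw [Fin.sum_univ_eq_sum_range (fun j => Q.coeff (j + 1) * x ^ (j + 1)) k]
    simp [add_comm]
  refine ⟨Equiv.addRight (fun j : Fin k => ((Q.coeff (j.val + 1) : ℤ) : ZMod q)), fun _ => rfl,
    fun _ => e ((((-Q.coeff 0 : ℤ)) : ℝ) / (q : ℝ)), fun _ => hEX.1 _, ?_⟩
  intro x _ h
  unfold G
  rw [← hEX.2.1, ← hEX.2.1, ← hQev, hQsum, ← add_div, ← add_div, ← Int.cast_add, ← Int.cast_add]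
  apply e_congr hEX hq
  rw [← (ZMod.intCast_zmod_eq_zero_iff_dvd _ q)]
  push_cast
  simp only [Equiv.coe_addRight, Pi.add_apply, ZMod.natCast_val, ZMod.cast_id', id_eq, add_mul,
    Finset.sum_add_distrib]
  ring

/-- power sums differences -/
def Dif (s : ℕ) (x y : Fin s → ℕ) (j : ℕ) : ℤ :=
  ∑ i, ((x i : ℕ) : ℤ) ^ (j + 1) - ∑ i, ((y i : ℕ) : ℤ) ^ (j + 1)

theorem sum_zmod (hEX : T_EX) [NeZero q] (D : ℤ) :
    ∑ h : ZMod q, e ((((h.val : ℤ) * D : ℤ) : ℝ) / (q : ℝ)) =
      if (q : ℤ) ∣ D then (q : ℂ) else 0 := by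
  have hq : 0 < q := Nat.pos_of_ne_zero (NeZero.ne q)
  rw [← hEX.2.2.2.2 q D hq]
  refine Finset.sum_nbij' (fun h : ZMod q => h.val) (fun n : ℕ => (n : ZMod q)) ?_ ?_ ?_ ?_ ?_
  · intro h _
    exact Finset.mem_range.2 (ZMod.val_lt h)
  · intro n _
    exact Finset.mem_univ _
  · intro h _
    exact ZMod.natCast_zmod_val h
  · intro n hn
    exact ZMod.val_natCast_of_lt (Finset.mem_range.1 hn)
  · intro h _
    rfl

theorem prod_G (hEX : T_EX) (s : ℕ) (x y : Fin s → ℕ) (h : Fin k → ZMod q) :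
    (∏ i, G k q (x i) h) * (starRingEnd ℂ) (∏ i, G k q (y i) h) =
      ∏ j : Fin k, e (((((h j).val : ℤ) * Dif s x y j.val : ℤ) : ℝ) / (q : ℝ)) := by
  rw [map_prod]
  have h1 : ∀ i, (starRingEnd ℂ) (G k q (y i) h) =
      e (-((((∑ j : Fin k, ((h j).val : ℤ) * ((y i : ℕ) : ℤ) ^ (j.val + 1) : ℤ)) : ℝ) / (q : ℝ))) := by
    intro i
    rw [hEX.2.2.2.1]
    rfl
  simp_rw [h1]
  unfold G
  rw [← e_sum hEX, ← e_sum hEX, ← hEX.2.1, ← e_sum hEX]
  congr 1
  rw [Finset.sum_neg_distrib, ← sub_eq_add_neg, ← Finset.sum_div, ← Finset.sum_div, ← sub_div,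
    ← Finset.sum_div]
  congr 1
  unfold Dif
  push_cast
  rw [Finset.sum_comm, Finset.sum_comm (s := (Finset.univ : Finset (Fin s))) (t := Finset.univ)
    (f := fun i (j : Fin k) => (((h j).val : ℕ) : ℝ) * ((y i : ℕ) : ℝ) ^ (j.val + 1)),
    ← Finset.sum_sub_distrib]
  apply Finset.sum_congr rfl
  intro j _
  rw [mul_sub, Finset.mul_sum, Finset.mul_sum]

theorem moment_G (hEX : T_EX) [NeZero q] (s : ℕ) (R : Finset ℕ) :
    ∑ h : Fin k → ZMod q, ‖bs (G k q) R h‖ ^ (2 * s) =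
      ∑ x ∈ Fintype.piFinset (fun _ : Fin s => R), ∑ y ∈ Fintype.piFinset (fun _ : Fin s => R),
        ∏ j : Fin k, (if (q : ℤ) ∣ Dif s x y j.val then (q : ℝ) else 0) := by
  have key : (((∑ h : Fin k → ZMod q, ‖bs (G k q) R h‖ ^ (2 * s) : ℝ)) : ℂ) =
      (((∑ x ∈ Fintype.piFinset (fun _ : Fin s => R), ∑ y ∈ Fintype.piFinset (fun _ : Fin s => R),
        ∏ j : Fin k, (if (q : ℤ) ∣ Dif s x y j.val then (q : ℝ) else 0) : ℝ)) : ℂ) := by
    push_cast
    have h1 : ∀ h : Fin k → ZMod q, ((‖bs (G k q) R h‖ : ℂ)) ^ (2 * s) =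
        ∑ x ∈ Fintype.piFinset (fun _ : Fin s => R), ∑ y ∈ Fintype.piFinset (fun _ : Fin s => R),
          ∏ j : Fin k, e (((((h j).val : ℤ) * Dif s x y j.val : ℤ) : ℝ) / (q : ℝ)) := by
      intro h
      have h2 : (bs (G k q) R h) ^ s =
          ∑ x ∈ Fintype.piFinset (fun _ : Fin s => R), ∏ i, G k q (x i) h := by
        have h2' := Finset.prod_univ_sum (fun _ : Fin s => R) (fun (_ : Fin s) (x : ℕ) => G k q x h)
        rw [← h2', Finset.prod_const, Finset.card_univ, Fintype.card_fin]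
        rfl
      have h3 : ((‖bs (G k q) R h‖ : ℂ)) ^ (2 * s) =
          (bs (G k q) R h) ^ s * (starRingEnd ℂ) ((bs (G k q) R h) ^ s) := by
        rw [map_pow, ← mul_pow, Complex.mul_conj, pow_mul]
        congr 1
        rw [Complex.normSq_eq_norm_sq]
        push_cast
        rfl
      rw [h3, h2, map_sum, Finset.sum_mul_sum]
      apply Finset.sum_congr rfl
      intro x _
      apply Finset.sum_congr rfl
      intro y _
      exact prod_G k q hEX s x y h
    simp_rw [h1]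
    rw [Finset.sum_comm]
    apply Finset.sum_congr rfl
    intro x _
    rw [Finset.sum_comm]
    apply Finset.sum_congr rfl
    intro y _
    have h5 := Finset.prod_univ_sum (fun _ : Fin k => (Finset.univ : Finset (ZMod q)))
      (fun (j : Fin k) (a : ZMod q) =>
        e ((((a.val : ℤ) * Dif s x y j.val : ℤ) : ℝ) / (q : ℝ)))
    rw [Fintype.piFinset_univ] at h5
    rw [← h5]
    apply Finset.prod_congr rfl
    intro j _
    rw [sum_zmod q hEX]
    split_ifs <;> simp
  exact_mod_cast key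

end

theorem sols_le (k p s B : ℕ) (q : ℕ) :
    ((sols s k (p ^ B)).card : ℝ) * (q : ℝ) ^ k ≤
      ∑ x ∈ Fintype.piFinset (fun _ : Fin s => Finset.Icc 1 (p ^ B)),
        ∑ y ∈ Fintype.piFinset (fun _ : Fin s => Finset.Icc 1 (p ^ B)),
        ∏ j : Fin k, (if (q : ℤ) ∣ Dif s x y j.val then (q : ℝ) else 0) := by
  rw [← Finset.sum_product']
  calc ((sols s k (p ^ B)).card : ℝ) * (q : ℝ) ^ k = ∑ _p ∈ sols s k (p ^ B), (q : ℝ) ^ k := by
        rw [Finset.sum_const, nsmul_eq_mul]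
    _ = ∑ z ∈ sols s k (p ^ B), ∏ j : Fin k,
          (if (q : ℤ) ∣ Dif s z.1 z.2 j.val then (q : ℝ) else 0) := by
        apply Finset.sum_congr rfl
        intro z hz
        rw [sols, Finset.mem_filter] at hz
        have h1 : ∀ j : Fin k, (if (q : ℤ) ∣ Dif s z.1 z.2 j.val then (q : ℝ) else 0) = q := by
          intro j
          have h2 : Dif s z.1 z.2 j.val = 0 := by
            unfold Dif
            have := hz.2 j
            have h3 : ∑ i, ((z.1 i : ℕ) : ℤ) ^ (j.val + 1) = ∑ i, ((z.2 i : ℕ) : ℤ) ^ (j.val + 1) := by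
              exact_mod_cast this
            rw [h3, sub_self]
          rw [h2, if_pos (dvd_zero _)]
        simp_rw [h1]
        rw [Finset.prod_const, Finset.card_univ, Fintype.card_fin]
    _ ≤ _ := by
        apply Finset.sum_le_sum_of_subset_of_nonneg
        · exact Finset.filter_subset _ _
        · intro z _ _
          apply Finset.prod_nonneg
          intro j _
          split_ifs
          · positivity
          · exact le_rfl

theorem cn (hEX : T_EX) : T_CN := by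
  intro k p s B C hk hp hs hsK hC hU
  set q : ℕ := p ^ (k * B) with hq
  have hq0 : 0 < q := pow_pos hp.pos _
  have : NeZero q := ⟨hq0.ne'⟩
  set R : Finset ℕ := Finset.Icc 1 (p ^ B) with hR
  have h1 := hU ℕ (Fin k → ZMod q) (fun _ => (1 : ℝ)) R (fun x => (x : ℤ) - 1) (G k q)
    (fun _ => zero_le_one) (by rw [← hq]; exact inv_G k q hEX R)
    (fun i _ ω => (norm_G k q hEX i ω).le)
    (by intro a _ b _ hab; simp only at hab; omega)
    (by
      intro i hi
      rw [hR, Finset.mem_Icc] at hi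
      have : ((i : ℕ) : ℤ) ≤ (p : ℤ) ^ B := by exact_mod_cast hi.2
      have h2 : (1 : ℤ) ≤ (i : ℤ) := by exact_mod_cast hi.1
      constructor <;> omega)
  set N : ℝ := ∑ _ω : Fin k → ZMod q, (1 : ℝ) with hN
  have hNq : N = (q : ℝ) ^ k := by
    rw [hN, Finset.sum_const, Finset.card_univ, nsmul_eq_mul, mul_one, Fintype.card_fun,
      ZMod.card, Fintype.card_fin]
    push_cast
    rfl
  have hN0 : 0 < N := by rw [hNq]; positivity
  set K : ℝ := KK k - 1 with hK
  have hs1 : (1 : ℝ) ≤ s := by exact_mod_cast hs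
  have hK1 : 1 ≤ K := hs1.trans hsK
  have hK0 : 0 < K := by linarith
  have hs0 : (0 : ℝ) < s := by linarith
  set U : ℝ := (p : ℝ) ^ B with hUdef
  have hp0 : (0 : ℝ) < p := by exact_mod_cast hp.pos
  have hU0 : 0 < U := by positivity
  -- power mean
  have h2 : (∑ h : Fin k → ZMod q, ‖bs (G k q) R h‖ ^ (2 * s)) / N ≤ (C * U ^ K) ^ ((s : ℝ) / K) := by
    have hpm := Real.rpow_arith_mean_le_arith_mean_rpow (Finset.univ : Finset (Fin k → ZMod q))
      (fun _ => 1 / N) (fun h => ‖bs (G k q) R h‖ ^ (2 * (s : ℝ)))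
      (fun _ _ => by positivity)
      (by
        rw [Finset.sum_const, nsmul_eq_mul]
        have : ((Finset.univ : Finset (Fin k → ZMod q)).card : ℝ) = N := by
          rw [hN, Finset.sum_const, nsmul_eq_mul, mul_one]
        rw [this]
        field_simp)
      (fun h _ => by positivity) (p := K / s) ((one_le_div hs0).2 hsK)
    have hA : ∑ h : Fin k → ZMod q, 1 / N * ‖bs (G k q) R h‖ ^ (2 * (s : ℝ)) =
        (∑ h : Fin k → ZMod q, ‖bs (G k q) R h‖ ^ (2 * s)) / N := by
      rw [← Finset.mul_sum, one_div, inv_mul_eq_div]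
      congr 1
      apply Finset.sum_congr rfl
      intro h _
      rw [← Real.rpow_natCast]
      push_cast
      rfl
    have hB : ∑ h : Fin k → ZMod q, 1 / N * (‖bs (G k q) R h‖ ^ (2 * (s : ℝ))) ^ (K / s) =
        mo (fun _ => (1 : ℝ)) (G k q) K R / N := by
      rw [← Finset.mul_sum, one_div, inv_mul_eq_div]
      congr 1
      unfold mo
      apply Finset.sum_congr rfl
      intro h _
      rw [one_mul, ← Real.rpow_mul (norm_nonneg _)]
      congr 1
      field_simp
    rw [hA, hB] at hpm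
    have hC2 : mo (fun _ => (1 : ℝ)) (G k q) K R / N ≤ C * U ^ K := by
      rw [div_le_iff₀ hN0]
      exact h1
    have h3 := hpm.trans hC2
    have hX0 : 0 ≤ (∑ h : Fin k → ZMod q, ‖bs (G k q) R h‖ ^ (2 * s)) / N := by positivity
    calc (∑ h : Fin k → ZMod q, ‖bs (G k q) R h‖ ^ (2 * s)) / N
        = (((∑ h : Fin k → ZMod q, ‖bs (G k q) R h‖ ^ (2 * s)) / N) ^ (K / s)) ^ ((s : ℝ) / K) := by
          rw [← Real.rpow_mul hX0]
          have : K / s * (s / K) = 1 := by field_simp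
          rw [this, Real.rpow_one]
      _ ≤ _ := Real.rpow_le_rpow (Real.rpow_nonneg hX0 _) h3 (by positivity)
  have h3 : (C * U ^ K) ^ ((s : ℝ) / K) ≤ (C + 1) * U ^ s := by
    rw [Real.mul_rpow hC (by positivity), ← Real.rpow_mul hU0.le]
    have h4 : K * ((s : ℝ) / K) = s := by field_simp
    rw [h4, Real.rpow_natCast]
    apply mul_le_mul_of_nonneg_right _ (by positivity)
    calc C ^ ((s : ℝ) / K) ≤ (C + 1) ^ ((s : ℝ) / K) :=
          Real.rpow_le_rpow hC (by linarith) (by positivity)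
      _ ≤ (C + 1) ^ (1 : ℝ) :=
          Real.rpow_le_rpow_of_exponent_le (by linarith) ((div_le_one hK0).2 hsK)
      _ = C + 1 := Real.rpow_one _
  have h4 := sols_le k p s B q
  rw [← moment_G k q hEX s, ← hNq] at h4
  have h5 := h2.trans h3
  rw [div_le_iff₀ hN0] at h5
  have h6 := h4.trans h5
  exact le_of_mul_le_mul_right h6 hN0

end Pool.Agent.H98.VM
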