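import Pool.Agent.H22.VM.Targets

/-!
# Module FN: the theorem from TB and CN (helper98)
-/

set_option autoImplicit false

open Finset

namespace Pool.Agent.H98.VM

open Pool.Agent.H22.VM

theorem sols_mono (s k : ℕ) {N M : ℕ} (h : N ≤ M) : sols s k N ⊆ sols s k M := by
  intro z hz
  rw [sols, Finset.mem_filter, Finset.mem_product, Fintype.mem_piFinset, Fintype.mem_piFinset]
    at hz ⊢
  refine ⟨⟨fun i => ?_, fun i => ?_⟩, hz.2⟩
  · exact Finset.Icc_subset_Icc_right h (hz.1.1 i)
  · exact Finset.Icc_subset_Icc_right h (hz.1.2 i)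

/-- degree two, `s ≤ 2` -/
theorem sols_two (s N : ℕ) (hs1 : 1 ≤ s) (hs2 : s ≤ 2) : (sols s 2 N).card ≤ 2 * N ^ s := by
  classical
  have hcard : ((Fintype.piFinset fun _ : Fin s => Finset.Icc 1 N) ×ˢ
      (Finset.univ : Finset Bool)).card = 2 * N ^ s := by
    rw [Finset.card_product, Fintype.card_piFinset]
    simp [mul_comm]
  rw [← hcard]
  obtain rfl | rfl : s = 1 ∨ s = 2 := by omega
  · apply Finset.card_le_card_of_injOn (fun z : (Fin 1 → ℕ) × (Fin 1 → ℕ) => (z.1, true))
    · intro z hz
      rw [Finset.mem_coe, sols, Finset.mem_filter, Finset.mem_product] at hz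
      rw [Finset.mem_coe, Finset.mem_product]
      exact ⟨hz.1.1, Finset.mem_univ _⟩
    · intro z hz z' hz' h
      rw [Finset.mem_coe, sols, Finset.mem_filter, Finset.mem_product] at hz hz'
      simp only [Prod.mk.injEq, and_true] at h
      have h1 := hz.2 0
      have h2 := hz'.2 0
      simp at h1 h2
      apply Prod.ext h
      funext i
      have hi : i = 0 := Subsingleton.elim _ _
      subst hi
      rw [← h1, ← h2, h]
  · apply Finset.card_le_card_of_injOn
      (fun z : (Fin 2 → ℕ) × (Fin 2 → ℕ) => (z.1, decide (z.2 0 = z.1 0)))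
    · intro z hz
      rw [Finset.mem_coe, sols, Finset.mem_filter, Finset.mem_product] at hz
      rw [Finset.mem_coe, Finset.mem_product]
      exact ⟨hz.1.1, Finset.mem_univ _⟩
    · intro z hz z' hz' h
      rw [Finset.mem_coe, sols, Finset.mem_filter, Finset.mem_product] at hz hz'
      simp only [Prod.mk.injEq] at h
      obtain ⟨hx, hb⟩ := h
      have h1 := hz.2 0
      have h2 := hz.2 1
      have h3 := hz'.2 0
      have h4 := hz'.2 1
      simp [Fin.sum_univ_two] at h1 h2 h3 h4
      rw [← hx] at h3 h4 hb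
      have key : ∀ x0 x1 y0 y1 : ℕ, x0 + x1 = y0 + y1 → x0 ^ 2 + x1 ^ 2 = y0 ^ 2 + y1 ^ 2 →
          (y0 = x0 ∧ y1 = x1) ∨ (y0 ≠ x0 ∧ y0 = x1 ∧ y1 = x0) := by
        intro x0 x1 y0 y1 ha hb
        have e1 : ((y0 : ℤ) - x0) * ((y0 : ℤ) - x1) = 0 := by
          have ha' : (x0 : ℤ) + x1 = y0 + y1 := by exact_mod_cast ha
          have hb' : (x0 : ℤ) ^ 2 + (x1 : ℤ) ^ 2 = (y0 : ℤ) ^ 2 + (y1 : ℤ) ^ 2 := by
            exact_mod_cast hb
          have hy1 : (y1 : ℤ) = x0 + x1 - y0 := by linarith
          rw [hy1] at hb'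
          nlinarith
        by_cases h0 : y0 = x0
        · left
          exact ⟨h0, by omega⟩
        · right
          rcases mul_eq_zero.1 e1 with h | h
          · exact absurd (by omega) h0
          · have : y0 = x1 := by omega
            exact ⟨h0, this, by omega⟩
      have k1 := key _ _ _ _ h1 h2
      have k2 := key _ _ _ _ h3 h4
      rw [decide_eq_decide] at hb
      have hyy : z.2 0 = z'.2 0 ∧ z.2 1 = z'.2 1 := by
        rcases k1 with ⟨a, b⟩ | ⟨n, a, b⟩
        · rcases k2 with ⟨c, d⟩ | ⟨n', c, d⟩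
          · exact ⟨by rw [a, c], by rw [b, d]⟩
          · exact absurd (hb.1 a) n'
        · rcases k2 with ⟨c, d⟩ | ⟨n', c, d⟩
          · exact absurd (hb.2 c) n
          · exact ⟨by rw [a, c], by rw [b, d]⟩
      apply Prod.ext hx
      funext i
      fin_cases i
      · exact hyy.1
      · exact hyy.2

theorem fn (hTB : T_TB) (hCN : T_CN) : T_FN := by
  intro s k hs hk hsk
  obtain rfl | rfl | hk3 : k = 1 ∨ k = 2 ∨ 3 ≤ k := by omega
  · omega
  · refine ⟨2, fun N _ => ?_⟩
    have := sols_two s N hs (by omega)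
    exact_mod_cast this
  · obtain ⟨p, hpk, hp⟩ := Nat.exists_infinite_primes (k + 33)
    obtain ⟨C, hC0, hC⟩ := hTB k p hk3 hp (by omega) (by omega)
    have hsK : (s : ℝ) ≤ KK k - 1 := by
      have heven : Even (k * (k + 1)) := Nat.even_mul_succ_self k
      obtain ⟨m, hm⟩ := heven
      have h1 : s + 1 ≤ m := by omega
      have h2 : KK k = m := by
        unfold KK
        have h3 : ((k : ℝ) * (k + 1)) = m + m := by exact_mod_cast hm
        rw [h3]
        ring
      rw [h2]
      have h4 : ((s + 1 : ℕ) : ℝ) ≤ m := by exact_mod_cast h1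
      push_cast at h4
      linarith
    refine ⟨(C + 1) * (p : ℝ) ^ s, fun N hN => ?_⟩
    set B := Nat.clog p N with hB
    have hp1 : 1 < p := hp.one_lt
    have hle : N ≤ p ^ B := Nat.le_pow_clog hp1 N
    have hge : p ^ B ≤ p * N := by
      rcases Nat.lt_or_ge 1 N with h | h
      · have h1 : 0 < B := Nat.clog_pos hp1 h
        have h2 : p ^ B.pred < N := Nat.pow_pred_clog_lt_self hp1 h
        have h3 : p ^ B = p * p ^ B.pred := by
          rw [← pow_succ']
          congr 1
          have : B.pred = B - 1 := rfl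
          omega
        rw [h3]
        exact Nat.mul_le_mul_left p h2.le
      · have h1 : N = 1 := by omega
        rw [hB, h1]
        simp
        omega
    calc ((sols s k N).card : ℝ) ≤ ((sols s k (p ^ B)).card : ℝ) := by
          exact_mod_cast Finset.card_le_card (sols_mono s k hle)
      _ ≤ (C + 1) * ((p : ℝ) ^ B) ^ s := hCN k p s B C hk hp hs hsK hC0 (hC B)
      _ ≤ (C + 1) * ((p : ℝ) * N) ^ s := by
          apply mul_le_mul_of_nonneg_left _ (by linarith)
          apply pow_le_pow_left₀ (by positivity)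
          exact_mod_cast hge
      _ = (C + 1) * (p : ℝ) ^ s * (N : ℝ) ^ s := by rw [mul_pow]; ring

end Pool.Agent.H98.VM
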